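import Mathlib

/-!
# Random matrices without constant submatrices

For `h = 2 j + 2` there is a `2 ^ j` by `2 ^ j` zero-one matrix without a constant `h` by `h`
submatrix.
-/

namespace Pool.Agent.TH470

open Finset

/-- matrices that are constant `c` on `A × B` -/
theorem card_const (m : ℕ) (A B : Finset (Fin m)) (c : Bool) :
    (univ.filter (fun χ : Fin m × Fin m → Bool => ∀ a ∈ A, ∀ b ∈ B, χ (a, b) = c)).card *
      2 ^ (A.card * B.card) = 2 ^ (m * m) := by
  classical
  have h1 : (univ.filter (fun χ : Fin m × Fin m → Bool => ∀ a ∈ A, ∀ b ∈ B, χ (a, b) = c)) =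
      Fintype.piFinset (fun p : Fin m × Fin m => if p ∈ A ×ˢ B then {c} else univ) := by
    ext χ
    simp only [mem_filter, mem_univ, true_and, Fintype.mem_piFinset, mem_product]
    constructor
    · intro h p
      split_ifs with hp
      · rw [mem_singleton]
        exact h p.1 hp.1 p.2 hp.2
      · exact mem_univ _
    · intro h a ha b hb
      have := h (a, b)
      rw [if_pos ⟨ha, hb⟩, mem_singleton] at this
      exact this
  rw [h1, Fintype.card_piFinset]
  have h2 : ∀ p : Fin m × Fin m, (if p ∈ A ×ˢ B then ({c} : Finset Bool) else univ).card =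
      if p ∈ A ×ˢ B then 1 else 2 := by
    intro p
    split_ifs
    · simp
    · simp
  simp_rw [h2]
  rw [Finset.prod_ite, prod_const_one, one_mul, prod_const, ← pow_add]
  congr 1
  have h3 : (univ.filter (fun p : Fin m × Fin m => p ∈ A ×ˢ B)).card = A.card * B.card := by
    rw [filter_mem_eq_inter, univ_inter, card_product]
  rw [← h3, add_comm, card_filter_add_card_filter_not]
  simp

theorem exists_matrix (m h : ℕ) (hm : 2 * m ^ (2 * h) < 2 ^ (h * h)) :
    ∃ χ : Fin m × Fin m → Bool, ∀ A B : Finset (Fin m), A.card = h → B.card = h → ∀ c : Bool,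
      ∃ a ∈ A, ∃ b ∈ B, χ (a, b) ≠ c := by
  classical
  by_contra hcon
  push Not at hcon
  set P := (powersetCard h (univ : Finset (Fin m)) ×ˢ powersetCard h (univ : Finset (Fin m))) ×ˢ
    (univ : Finset Bool) with hP
  have hcov : (univ : Finset (Fin m × Fin m → Bool)) ⊆ P.biUnion (fun p =>
      univ.filter (fun χ : Fin m × Fin m → Bool => ∀ a ∈ p.1.1, ∀ b ∈ p.1.2, χ (a, b) = p.2)) := by
    intro χ _
    obtain ⟨A, B, hA, hB, c, hc⟩ := hcon χ
    rw [mem_biUnion]
    refine ⟨((A, B), c), ?_, ?_⟩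
    · simp [hP, mem_powersetCard, hA, hB]
    · simp only [mem_filter, mem_univ, true_and]
      exact hc
  have h1 := (card_le_card hcov).trans card_biUnion_le
  have hcard : (univ : Finset (Fin m × Fin m → Bool)).card = 2 ^ (m * m) := by simp
  rw [hcard] at h1
  have h2 : (∑ p ∈ P, (univ.filter (fun χ : Fin m × Fin m → Bool =>
      ∀ a ∈ p.1.1, ∀ b ∈ p.1.2, χ (a, b) = p.2)).card) * 2 ^ (h * h) = P.card * 2 ^ (m * m) := by
    rw [sum_mul, sum_congr rfl (g := fun _ => 2 ^ (m * m)), sum_const, smul_eq_mul]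
    intro p hp
    simp only [hP, mem_product, mem_powersetCard, mem_univ, and_true] at hp
    have := card_const m p.1.1 p.1.2 p.2
    rw [hp.1.2, hp.2.2] at this
    exact this
  have h3 : P.card ≤ 2 * m ^ (2 * h) := by
    rw [hP, card_product, card_product, card_powersetCard]
    simp only [card_univ, Fintype.card_fin, Fintype.card_bool]
    have := Nat.choose_le_pow m h
    calc m.choose h * m.choose h * 2 ≤ m ^ h * m ^ h * 2 := by gcongr
      _ = 2 * m ^ (2 * h) := by ring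
  have h4 : 2 ^ (m * m) * 2 ^ (h * h) ≤ P.card * 2 ^ (m * m) := by
    rw [← h2]
    exact Nat.mul_le_mul_right _ h1
  have h5 : P.card * 2 ^ (m * m) < 2 ^ (h * h) * 2 ^ (m * m) :=
    Nat.mul_lt_mul_of_pos_right (h3.trans_lt hm) (by positivity)
  rw [mul_comm (2 ^ (m * m)) (2 ^ (h * h))] at h4
  exact absurd (h4.trans_lt h5) (lt_irrefl _)

theorem exists_matrix' (j : ℕ) :
    ∃ χ : Fin (2 ^ j) × Fin (2 ^ j) → Bool, ∀ A B : Finset (Fin (2 ^ j)),
      A.card = 2 * j + 2 → B.card = 2 * j + 2 → ∀ c : Bool,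
      ∃ a ∈ A, ∃ b ∈ B, χ (a, b) ≠ c := by
  apply exists_matrix
  rw [← pow_mul, ← pow_succ']
  apply Nat.pow_lt_pow_right (by norm_num)
  nlinarith

/-- The same on natural numbers. -/
theorem exists_chi (j : ℕ) :
    ∃ χ : ℕ → ℕ → Bool, ∀ A B : Finset ℕ, (∀ a ∈ A, a < 2 ^ j) → (∀ b ∈ B, b < 2 ^ j) →
      A.card = 2 * j + 2 → B.card = 2 * j + 2 → ∀ c : Bool,
      ∃ a ∈ A, ∃ b ∈ B, χ a b ≠ c := by
  classical
  obtain ⟨χ, hχ⟩ := exists_matrix' j
  have hpos : 0 < 2 ^ j := by positivity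
  refine ⟨fun a b => χ (⟨a % 2 ^ j, Nat.mod_lt _ hpos⟩, ⟨b % 2 ^ j, Nat.mod_lt _ hpos⟩), ?_⟩
  intro A B hA hB hAc hBc c
  have key : ∀ X : Finset ℕ, (∀ a ∈ X, a < 2 ^ j) →
      (X.image (fun a => (⟨a % 2 ^ j, Nat.mod_lt _ hpos⟩ : Fin (2 ^ j)))).card = X.card := by
    intro X hX
    apply card_image_of_injOn
    intro a ha b hb hab
    simp only [Fin.mk.injEq] at hab
    rwa [Nat.mod_eq_of_lt (hX a ha), Nat.mod_eq_of_lt (hX b hb)] at hab
  obtain ⟨a, ha, b, hb, hne⟩ := hχ _ _ ((key A hA).trans hAc) ((key B hB).trans hBc) c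
  rw [mem_image] at ha hb
  obtain ⟨a', ha', rfl⟩ := ha
  obtain ⟨b', hb', rfl⟩ := hb
  exact ⟨a', ha', b', hb', hne⟩

end Pool.Agent.TH470
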