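import Mathlib
import Pool.Agent.H526R2.Delta.Main
import Pool.Agent.TH470.BR

/-!
# A stepping-up colouring of quadruples

Blue quadruples contain no complete `7`-set, red quadruples contain no complete `16 j + 16`-set,
on `2 ^ 2 ^ j` points.
-/

namespace Pool.Agent.TH470

open Finset
open Pool.Agent.H526R2.Delta (hd isDelta_hd hd_lt)

/-- the blue triples `a < b < c` -/
def T3 (χ : ℕ → ℕ → Bool) (a b c : ℕ) : Prop := χ a b = true ∧ χ a c = false

/-- the matrix has no constant square submatrix of size `2 j + 2` -/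
def Good (j : ℕ) (χ : ℕ → ℕ → Bool) : Prop :=
  ∀ A B : Finset ℕ, (∀ a ∈ A, a < 2 ^ j) → (∀ b ∈ B, b < 2 ^ j) →
      A.card = 2 * j + 2 → B.card = 2 * j + 2 → ∀ c : Bool,
      ∃ a ∈ A, ∃ b ∈ B, χ a b ≠ c

theorem red_seq {j : ℕ} {χ : ℕ → ℕ → Bool} (hχ : Good j χ) (d : ℕ → ℕ)
    (hmono : ∀ i k, i < k → k < 4 * (2 * j + 2) → d i < d k)
    (hb : ∀ i, i < 4 * (2 * j + 2) → d i < 2 ^ j) :
    ∃ i k l, i < k ∧ k < l ∧ l < 4 * (2 * j + 2) ∧ T3 χ (d i) (d k) (d l) := by
  classical
  by_contra hcon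
  push Not at hcon
  set h := 2 * j + 2 with hh
  have hinj : ∀ X : Finset ℕ, (∀ i ∈ X, i < 4 * h) → (X.image d).card = X.card := by
    intro X hX
    apply card_image_of_injOn
    intro a ha b hb' hab
    rcases lt_trichotomy a b with h1 | h1 | h1
    · exact absurd hab (hmono a b h1 (hX b hb')).ne
    · exact h1
    · exact absurd hab (hmono b a h1 (hX a ha)).ne'
  set F := range (2 * h) with hF
  obtain ⟨P, hP⟩ : ∃ P : ℕ → Prop, ∀ i, P i ↔ ∃ k ∈ Ico (2 * h) (3 * h), χ (d i) (d k) = true :=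
    ⟨_, fun _ => Iff.rfl⟩
  set F1 := F.filter P with hF1
  set F0 := F.filter (fun i => ¬ P i) with hF0
  have hsum : F1.card + F0.card = 2 * h := by
    rw [hF1, hF0, card_filter_add_card_filter_not, hF, card_range]
  rcases le_or_gt h F1.card with h1 | h1
  · obtain ⟨A, hA, hAc⟩ := exists_subset_card_eq h1
    have hAF : ∀ i ∈ A, i < 2 * h ∧ ∃ k ∈ Ico (2 * h) (3 * h), χ (d i) (d k) = true := by
      intro i hi
      have := mem_filter.1 (hA hi)
      rw [hF, mem_range, hP] at this
      exact this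
    obtain ⟨a, ha, b, hb', hne⟩ := hχ (A.image d) ((Ico (3 * h) (4 * h)).image d)
      (by
        intro a ha
        obtain ⟨i, hi, rfl⟩ := mem_image.1 ha
        exact hb i (by have := (hAF i hi).1; omega))
      (by
        intro a ha
        obtain ⟨i, hi, rfl⟩ := mem_image.1 ha
        rw [mem_Ico] at hi
        exact hb i hi.2)
      (by rw [hinj A (fun i hi => by have := (hAF i hi).1; omega), hAc])
      (by rw [hinj _ (fun i hi => (mem_Ico.1 hi).2), Nat.card_Ico]; omega) true
    obtain ⟨i, hi, rfl⟩ := mem_image.1 ha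
    obtain ⟨l, hl, rfl⟩ := mem_image.1 hb'
    obtain ⟨hi2, k, hk, hik⟩ := hAF i hi
    rw [mem_Ico] at hk hl
    have := hcon i k l (by omega) (by omega) hl.2
    apply this
    refine ⟨hik, ?_⟩
    simpa using hne
  · have h0 : h ≤ F0.card := by omega
    obtain ⟨A, hA, hAc⟩ := exists_subset_card_eq h0
    have hAF : ∀ i ∈ A, i < 2 * h ∧ ¬ ∃ k ∈ Ico (2 * h) (3 * h), χ (d i) (d k) = true := by
      intro i hi
      have := mem_filter.1 (hA hi)
      rw [hF, mem_range, hP] at this
      exact this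
    obtain ⟨a, ha, b, hb', hne⟩ := hχ (A.image d) ((Ico (2 * h) (3 * h)).image d)
      (by
        intro a ha
        obtain ⟨i, hi, rfl⟩ := mem_image.1 ha
        exact hb i (by have := (hAF i hi).1; omega))
      (by
        intro a ha
        obtain ⟨i, hi, rfl⟩ := mem_image.1 ha
        rw [mem_Ico] at hi
        exact hb i (by omega))
      (by rw [hinj A (fun i hi => by have := (hAF i hi).1; omega), hAc])
      (by rw [hinj _ (fun i hi => by rw [mem_Ico] at hi; omega), Nat.card_Ico]; omega) false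
    obtain ⟨i, hi, rfl⟩ := mem_image.1 ha
    obtain ⟨l, hl, rfl⟩ := mem_image.1 hb'
    exact (hAF i hi).2 ⟨l, hl, by simpa using hne⟩

/-- the blue quadruples `x1 < x2 < x3 < x4` -/
def Blue4 (χ : ℕ → ℕ → Bool) (x1 x2 x3 x4 : ℕ) : Prop :=
  (hd x2 x3 < hd x1 x2 ∧ hd x2 x3 < hd x3 x4) ∨
  (hd x1 x2 < hd x2 x3 ∧ hd x2 x3 < hd x3 x4 ∧ T3 χ (hd x1 x2) (hd x2 x3) (hd x3 x4)) ∨
  (hd x3 x4 < hd x2 x3 ∧ hd x2 x3 < hd x1 x2 ∧ T3 χ (hd x3 x4) (hd x2 x3) (hd x1 x2))

theorem hd_ne {x y z : ℕ} (h1 : x < y) (h2 : y < z) : hd x y ≠ hd y z :=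
  (isDelta_hd Set.univ x trivial y trivial z trivial h1 h2).1

theorem hd_max {x y z : ℕ} (h1 : x < y) (h2 : y < z) : hd x z = max (hd x y) (hd y z) :=
  (isDelta_hd Set.univ x trivial y trivial z trivial h1 h2).2

/-- increasing stretch -/
theorem hd_inc (y : ℕ → ℕ) (K : ℕ) (hy : ∀ i, i < K → y i < y (i + 1))
    (he : ∀ i, i + 1 < K → hd (y i) (y (i + 1)) < hd (y (i + 1)) (y (i + 2))) (i : ℕ) :
    ∀ k, i < k → k ≤ K → y i < y k ∧ hd (y i) (y k) = hd (y (k - 1)) (y k) := by
  intro k
  induction k with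
  | zero => intro h; omega
  | succ k ih =>
    intro h1 h2
    rcases Nat.lt_or_ge i k with h3 | h3
    · obtain ⟨h4, h5⟩ := ih h3 (by omega)
      have h6 := hy k (by omega)
      refine ⟨h4.trans h6, ?_⟩
      rw [hd_max h4 h6, h5]
      have h7 := he (k - 1) (by omega)
      rw [show k - 1 + 1 = k by omega, show k - 1 + 2 = k + 1 by omega] at h7
      rw [show k + 1 - 1 = k by omega]
      omega
    · have h4 : i = k := by omega
      subst h4
      exact ⟨hy i (by omega), by rw [show i + 1 - 1 = i by omega]⟩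

/-- decreasing stretch -/
theorem hd_dec (y : ℕ → ℕ) (K : ℕ) (hy : ∀ i, i < K → y i < y (i + 1))
    (he : ∀ i, i + 1 < K → hd (y (i + 1)) (y (i + 2)) < hd (y i) (y (i + 1))) (i : ℕ) :
    ∀ k, i < k → k ≤ K → y i < y k ∧ hd (y i) (y k) = hd (y i) (y (i + 1)) ∧
      hd (y (k - 1)) (y k) ≤ hd (y i) (y (i + 1)) := by
  intro k
  induction k with
  | zero => intro h; omega
  | succ k ih =>
    intro h1 h2
    rcases Nat.lt_or_ge i k with h3 | h3
    · obtain ⟨h4, h5, h8⟩ := ih h3 (by omega)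
      have h6 := hy k (by omega)
      refine ⟨h4.trans h6, ?_⟩
      have h7 := he (k - 1) (by omega)
      rw [show k - 1 + 1 = k by omega, show k - 1 + 2 = k + 1 by omega] at h7
      rw [hd_max h4 h6, h5, show k + 1 - 1 = k by omega]
      omega
    · have h4 : i = k := by omega
      subst h4
      exact ⟨hy i (by omega), rfl, by rw [show i + 1 - 1 = i by omega]⟩

theorem e_mono (e : ℕ → ℕ) (K : ℕ) (he : ∀ i, i + 1 < K → e i < e (i + 1)) (i : ℕ) :
    ∀ k, i < k → k < K → e i < e k := by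
  intro k
  induction k with
  | zero => intro h; omega
  | succ k ih =>
    intro h1 h2
    have h3 := he k h2
    rcases Nat.lt_or_ge i k with h4 | h4
    · exact (ih h4 (by omega)).trans h3
    · have : i = k := by omega
      subst this
      exact h3

theorem e_anti (e : ℕ → ℕ) (K : ℕ) (he : ∀ i, i + 1 < K → e (i + 1) < e i) (i : ℕ) :
    ∀ k, i < k → k < K → e k < e i := by
  intro k
  induction k with
  | zero => intro h; omega
  | succ k ih =>
    intro h1 h2
    have h3 := he k h2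
    rcases Nat.lt_or_ge i k with h4 | h4
    · exact h3.trans (ih h4 (by omega))
    · have : i = k := by omega
      subst this
      exact h3

/-- triples of differences in an increasing stretch are realised -/
theorem inc_real (χ : ℕ → ℕ → Bool) (y : ℕ → ℕ) (K : ℕ) (hy : ∀ i, i < K → y i < y (i + 1))
    (he : ∀ i, i + 1 < K → hd (y i) (y (i + 1)) < hd (y (i + 1)) (y (i + 2)))
    {i k l : ℕ} (hik : i < k) (hkl : k < l) (hl : l < K) :
    Blue4 χ (y i) (y (i + 1)) (y (k + 1)) (y (l + 1)) ↔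
      T3 χ (hd (y i) (y (i + 1))) (hd (y k) (y (k + 1))) (hd (y l) (y (l + 1))) := by
  have a2 := (hd_inc y K hy he (i + 1) (k + 1) (by omega) (by omega)).2
  have a3 := (hd_inc y K hy he (k + 1) (l + 1) (by omega) (by omega)).2
  have m := e_mono (fun i => hd (y i) (y (i + 1))) K he
  have m1 : hd (y i) (y (i + 1)) < hd (y k) (y (k + 1)) := m i k hik (by omega)
  have m2 : hd (y k) (y (k + 1)) < hd (y l) (y (l + 1)) := m k l hkl (by omega)
  rw [show k + 1 - 1 = k by omega] at a2
  rw [show l + 1 - 1 = l by omega] at a3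
  unfold Blue4
  rw [a2, a3]
  constructor
  · rintro (⟨h1, h2⟩ | ⟨h1, h2, h3⟩ | ⟨h1, h2, h3⟩)
    · omega
    · exact h3
    · omega
  · intro h
    exact Or.inr (Or.inl ⟨m1, m2, h⟩)

/-- triples of differences in a decreasing stretch are realised -/
theorem dec_real (χ : ℕ → ℕ → Bool) (y : ℕ → ℕ) (K : ℕ) (hy : ∀ i, i < K → y i < y (i + 1))
    (he : ∀ i, i + 1 < K → hd (y (i + 1)) (y (i + 2)) < hd (y i) (y (i + 1)))
    {i k l : ℕ} (hik : i < k) (hkl : k < l) (hl : l < K) :
    Blue4 χ (y i) (y k) (y l) (y (l + 1)) ↔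
      T3 χ (hd (y l) (y (l + 1))) (hd (y k) (y (k + 1))) (hd (y i) (y (i + 1))) := by
  have a2 := (hd_dec y K hy he i k (by omega) (by omega)).2.1
  have a3 := (hd_dec y K hy he k l (by omega) (by omega)).2.1
  have m := e_anti (fun i => hd (y i) (y (i + 1))) K he
  have m1 : hd (y k) (y (k + 1)) < hd (y i) (y (i + 1)) := m i k hik (by omega)
  have m2 : hd (y l) (y (l + 1)) < hd (y k) (y (k + 1)) := m k l hkl (by omega)
  unfold Blue4
  rw [a2, a3]
  constructor
  · rintro (⟨h1, h2⟩ | ⟨h1, h2, h3⟩ | ⟨h1, h2, h3⟩)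
    · omega
    · omega
    · exact h3
  · intro h
    exact Or.inr (Or.inr ⟨m2, m1, h⟩)

theorem stretch (R : ℕ → Prop) (M K : ℕ) (h : ∀ i, i + 1 < M → ¬ R i → ¬ R (i + 1)) :
    (∀ i, i + 1 < K → R i) ∨ (∀ i, K ≤ i + 2 → i < M → ¬ R i) := by
  by_cases h1 : ∀ i, i + 1 < K → R i
  · exact Or.inl h1
  · push Not at h1
    obtain ⟨i, hi, hR⟩ := h1
    right
    have : ∀ t, i + t < M → ¬ R (i + t) := by
      intro t
      induction t with
      | zero => intro _; exact hR
      | succ t ih =>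
        intro ht
        exact h (i + t) (by omega) (ih (by omega))
    intro k hk hkM
    have := this (k - i)
    rw [show i + (k - i) = k by omega] at this
    exact this hkM

/-- No long red sequence. -/
theorem red_bound {j : ℕ} {χ : ℕ → ℕ → Bool} (hχ : Good j χ) (x : ℕ → ℕ) (n : ℕ)
    (hn : 8 * (2 * j + 2) ≤ n) (hx : ∀ i, i + 1 < n → x i < x (i + 1))
    (hxb : ∀ i, i < n → x i < 2 ^ 2 ^ j) :
    ∃ a b c d, a < b ∧ b < c ∧ c < d ∧ d < n ∧ Blue4 χ (x a) (x b) (x c) (x d) := by
  by_contra hcon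
  push Not at hcon
  set K := 4 * (2 * j + 2) with hK
  have hst := stretch (fun i => hd (x i) (x (i + 1)) < hd (x (i + 1)) (x (i + 2))) (n - 2) K (by
    intro i hi h1
    have h2 : hd (x i) (x (i + 1)) ≠ hd (x (i + 1)) (x (i + 2)) :=
      hd_ne (hx i (by omega)) (hx (i + 1) (by omega))
    intro h3
    rw [show i + 1 + 1 = i + 2 by omega, show i + 1 + 2 = i + 3 by omega] at h3
    exact hcon i (i + 1) (i + 2) (i + 3) (by omega) (by omega) (by omega) (by omega)
      (Or.inl ⟨by omega, h3⟩))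
  have hlt : ∀ i, i + 1 < n → hd (x i) (x (i + 1)) < 2 ^ j := fun i hi =>
    hd_lt (hx i hi) (hxb (i + 1) hi)
  rcases hst with h | h
  · obtain ⟨i, k, l, hik, hkl, hl, hT⟩ := red_seq hχ (fun i => hd (x i) (x (i + 1)))
      (fun i k hik hk => e_mono (fun i => hd (x i) (x (i + 1))) K (fun i hi => h i (by omega)) i k
        hik hk)
      (fun i hi => hlt i (by omega))
    have := (inc_real χ x K (fun i hi => hx i (by omega)) (fun i hi => h i (by omega)) hik hkl
      hl).2 hT
    exact hcon _ _ _ _ (by omega) (by omega) (by omega) (by omega) this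
  · set y : ℕ → ℕ := fun i => x (K - 1 + i) with hy
    have hy1 : ∀ i, i < K → y i < y (i + 1) := fun i hi => hx (K - 1 + i) (by omega)
    have hy2 : ∀ i, i + 1 < K → hd (y (i + 1)) (y (i + 2)) < hd (y i) (y (i + 1)) := by
      intro i hi
      have h1 := h (K - 1 + i) (by omega) (by omega)
      have h2 : hd (x (K - 1 + i)) (x (K - 1 + i + 1)) ≠
          hd (x (K - 1 + i + 1)) (x (K - 1 + i + 2)) :=
        hd_ne (hx (K - 1 + i) (by omega)) (hx (K - 1 + i + 1) (by omega))
      simp only [hy]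
      rw [show K - 1 + (i + 1) = K - 1 + i + 1 by omega,
        show K - 1 + (i + 2) = K - 1 + i + 2 by omega]
      omega
    obtain ⟨i, k, l, hik, hkl, hl, hT⟩ := red_seq hχ
      (fun i => hd (y (K - 1 - i)) (y (K - 1 - i + 1)))
      (fun i k hik hk => e_anti (fun i => hd (y i) (y (i + 1))) K hy2 (K - 1 - k) (K - 1 - i)
        (by omega) (by omega))
      (fun i hi => by
        have := hlt (K - 1 + (K - 1 - i)) (by omega)
        exact this)
    have := (dec_real χ y K hy1 hy2 (i := K - 1 - l) (k := K - 1 - k) (l := K - 1 - i)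
      (by omega) (by omega) (by omega)).2 hT
    simp only [hy] at this
    exact hcon _ _ _ _ (by omega) (by omega) (by omega) (by omega) this

/-- No blue sequence of length seven. -/
theorem blue_bound {χ : ℕ → ℕ → Bool} (x : ℕ → ℕ) (hx : ∀ i, i + 1 < 7 → x i < x (i + 1)) :
    ∃ a b c d, a < b ∧ b < c ∧ c < d ∧ d < 7 ∧ ¬ Blue4 χ (x a) (x b) (x c) (x d) := by
  by_contra hcon
  push Not at hcon
  have hst := stretch (fun i => hd (x (i + 1)) (x (i + 2)) < hd (x i) (x (i + 1))) 5 4 (by
    intro i hi h1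
    have h2 : hd (x i) (x (i + 1)) ≠ hd (x (i + 1)) (x (i + 2)) :=
      hd_ne (hx i (by omega)) (hx (i + 1) (by omega))
    intro h3
    rw [show i + 1 + 1 = i + 2 by omega, show i + 1 + 2 = i + 3 by omega] at h3
    have := hcon i (i + 1) (i + 2) (i + 3) (by omega) (by omega) (by omega) (by omega)
    rcases this with h4 | h4 | h4
    · omega
    · omega
    · omega)
  rcases hst with h | h
  · have r1 := (dec_real χ x 4 (fun i hi => hx i (by omega)) (fun i hi => h i (by omega))
      (i := 1) (k := 2) (l := 3) (by omega) (by omega) (by omega)).1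
      (hcon _ _ _ _ (by omega) (by omega) (by omega) (by omega))
    have r2 := (dec_real χ x 4 (fun i hi => hx i (by omega)) (fun i hi => h i (by omega))
      (i := 0) (k := 1) (l := 3) (by omega) (by omega) (by omega)).1
      (hcon _ _ _ _ (by omega) (by omega) (by omega) (by omega))
    have e1 := r1.2
    have e2 := r2.1
    rw [e1] at e2
    exact absurd e2 (by decide)
  · set y : ℕ → ℕ := fun i => x (2 + i) with hy
    have hy1 : ∀ i, i < 4 → y i < y (i + 1) := fun i hi => hx (2 + i) (by omega)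
    have hy2 : ∀ i, i + 1 < 4 → hd (y i) (y (i + 1)) < hd (y (i + 1)) (y (i + 2)) := by
      intro i hi
      have h1 := h (2 + i) (by omega) (by omega)
      have h2 : hd (x (2 + i)) (x (2 + i + 1)) ≠ hd (x (2 + i + 1)) (x (2 + i + 2)) :=
        hd_ne (hx (2 + i) (by omega)) (hx (2 + i + 1) (by omega))
      simp only [hy]
      rw [show 2 + (i + 1) = 2 + i + 1 by omega, show 2 + (i + 2) = 2 + i + 2 by omega]
      omega
    have r1 := (inc_real χ y 4 hy1 hy2 (i := 0) (k := 1) (l := 2) (by omega) (by omega)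
      (by omega)).1 (hcon _ _ _ _ (by omega) (by omega) (by omega) (by omega))
    have r2 := (inc_real χ y 4 hy1 hy2 (i := 0) (k := 2) (l := 3) (by omega) (by omega)
      (by omega)).1 (hcon _ _ _ _ (by omega) (by omega) (by omega) (by omega))
    have e1 := r1.2
    have e2 := r2.1
    rw [e1] at e2
    exact absurd e2 (by decide)

end Pool.Agent.TH470
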