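import Mathlib
import Pool.Agent.TH470.Step

/-!
# Quasi-Ramsey numbers: quadruples, two colours
-/

namespace Pool.Agent.TH470

open Finset

theorem card4 {n : ℕ} {y1 y2 y3 y4 : Fin n} (hy1 : y1 < y2) (hy2 : y2 < y3) (hy3 : y3 < y4) :
    ({y1, y2, y3, y4} : Finset (Fin n)).card = 4 := by
  rw [card_eq_of_equiv_fin]
  refine (Equiv.ofBijective (fun i : Fin 4 => (⟨![y1, y2, y3, y4] i, ?_⟩ :
    ({y1, y2, y3, y4} : Finset (Fin n)))) ⟨?_, ?_⟩).symm
  · fin_cases i <;> simp
  · intro i j hij
    have hij' : ![y1, y2, y3, y4] i = ![y1, y2, y3, y4] j := by simpa using hij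
    fin_cases i <;> fin_cases j <;> simp at hij' ⊢ <;> omega
  · rintro ⟨z, hz⟩
    simp only [mem_insert, mem_singleton] at hz
    rcases hz with rfl | rfl | rfl | rfl
    · exact ⟨0, rfl⟩
    · exact ⟨1, rfl⟩
    · exact ⟨2, rfl⟩
    · exact ⟨3, rfl⟩

theorem sorted_unique {n : ℕ} {x1 x2 x3 x4 y1 y2 y3 y4 : Fin n} (hx1 : x1 < x2) (hx2 : x2 < x3)
    (hx3 : x3 < x4) (hy1 : y1 < y2) (hy2 : y2 < y3) (hy3 : y3 < y4)
    (h : ({x1, x2, x3, x4} : Finset (Fin n)) = {y1, y2, y3, y4}) :
    x1 = y1 ∧ x2 = y2 ∧ x3 = y3 ∧ x4 = y4 := by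
  have hc := card4 hy1 hy2 hy3
  have mono : ∀ a b c d : Fin n, a < b → b < c → c < d → StrictMono ![a, b, c, d] := by
    intro a b c d h1 h2 h3 i j hij
    fin_cases i <;> fin_cases j <;> simp at hij ⊢ <;> omega
  have e1 := orderEmbOfFin_unique hc (f := ![x1, x2, x3, x4]) (by
    intro i
    rw [← h]
    fin_cases i <;> simp) (mono _ _ _ _ hx1 hx2 hx3)
  have e2 := orderEmbOfFin_unique hc (f := ![y1, y2, y3, y4]) (by
    intro i
    fin_cases i <;> simp) (mono _ _ _ _ hy1 hy2 hy3)
  have e3 := e1.trans e2.symm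
  exact ⟨congrFun e3 0, congrFun e3 1, congrFun e3 2, congrFun e3 3⟩

open Classical in
/-- colour `1` = blue, colour `0` = red -/
noncomputable def col (χ : ℕ → ℕ → Bool) (n : ℕ) (e : Finset (Fin n)) : Fin 2 :=
  if ∃ x1 x2 x3 x4 : Fin n, x1 < x2 ∧ x2 < x3 ∧ x3 < x4 ∧ e = {x1, x2, x3, x4} ∧
    Blue4 χ x1 x2 x3 x4 then 1 else 0

theorem col_iff (χ : ℕ → ℕ → Bool) {n : ℕ} {x1 x2 x3 x4 : Fin n} (h1 : x1 < x2) (h2 : x2 < x3)
    (h3 : x3 < x4) : col χ n {x1, x2, x3, x4} = 1 ↔ Blue4 χ x1 x2 x3 x4 := by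
  unfold col
  split_ifs with h
  · simp only [true_iff]
    obtain ⟨y1, y2, y3, y4, g1, g2, g3, he, hb⟩ := h
    obtain ⟨rfl, rfl, rfl, rfl⟩ := sorted_unique h1 h2 h3 g1 g2 g3 he
    exact hb
  · constructor
    · intro h'
      exact absurd h' (by decide)
    · intro hb
      exact absurd ⟨x1, x2, x3, x4, h1, h2, h3, rfl, hb⟩ h

/-- enumerate a set increasingly -/
theorem enum {n : ℕ} (S : Finset (Fin n)) (s : ℕ) (hs : s ≤ S.card) :
    ∃ x : ℕ → ℕ, (∀ i, i + 1 < s → x i < x (i + 1)) ∧ (∀ i, i < s → x i < n) ∧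
      ∀ χ a b c d, a < b → b < c → c < d → d < s → ∃ e ∈ S.powersetCard 4,
        (col χ n e = 1 ↔ Blue4 χ (x a) (x b) (x c) (x d)) := by
  classical
  set f := S.orderEmbOfFin rfl with hf
  have hfm : ∀ i, f i ∈ S := fun i => S.orderEmbOfFin_mem rfl i
  refine ⟨fun i => if h : i < S.card then (f ⟨i, h⟩ : ℕ) else 0, ?_, ?_, ?_⟩
  · intro i hi
    simp only
    rw [dif_pos (by omega), dif_pos (by omega)]
    exact Fin.lt_def.1 (f.strictMono (by simp))
  · intro i hi
    simp only
    rw [dif_pos (by omega)]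
    exact (f _).2
  · intro χ a b c d hab hbc hcd hd
    refine ⟨{f ⟨a, by omega⟩, f ⟨b, by omega⟩, f ⟨c, by omega⟩, f ⟨d, by omega⟩}, ?_, ?_⟩
    · rw [mem_powersetCard]
      constructor
      · intro z hz
        simp only [mem_insert, mem_singleton] at hz
        rcases hz with rfl | rfl | rfl | rfl <;> exact hfm _
      · exact card4 (f.strictMono (by simpa using hab)) (f.strictMono (by simpa using hbc))
          (f.strictMono (by simpa using hcd))
    · have e1 : f ⟨a, by omega⟩ < f ⟨b, by omega⟩ := f.strictMono (by simpa using hab)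
      have e2 : f ⟨b, by omega⟩ < f ⟨c, by omega⟩ := f.strictMono (by simpa using hbc)
      have e3 : f ⟨c, by omega⟩ < f ⟨d, by omega⟩ := f.strictMono (by simpa using hcd)
      rw [col_iff χ e1 e2 e3]
      simp only
      rw [dif_pos (by omega), dif_pos (by omega), dif_pos (by omega), dif_pos (by omega)]

/-- a set containing `v` in all of its `4`-subsets -/
theorem card_star {n : ℕ} (S : Finset (Fin n)) (v : Fin n) (hv : v ∈ S) :
    ((S.powersetCard 4).filter (fun e => v ∈ e)).card = (S.card - 1).choose 3 := by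
  have h := card_filter_powersetCard_subset {v} S 4 (by simpa using hv) (by simp)
  simp only [singleton_subset_iff, card_singleton] at h
  exact h

/-- If every `7`-subset of `S` contains a quadruple outside `P`, then at least `1/35` of the
quadruples of `S` lie outside `P`. -/
theorem density {n : ℕ} (S : Finset (Fin n)) (hS : 7 ≤ S.card) (P : Finset (Fin n) → Prop)
    [DecidablePred P]
    (h : ∀ T ∈ S.powersetCard 7, ∃ e ∈ T.powersetCard 4, ¬ P e) :
    35 * ((S.powersetCard 4).filter P).card ≤ 34 * S.card.choose 4 := by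
  classical
  have h1 := card_mul_le_card_mul (s := S.powersetCard 7)
    (t := (S.powersetCard 4).filter (fun e => ¬ P e)) (fun T e => e ⊆ T)
    (m := 1) (n := (S.card - 4).choose 3) (by
      intro T hT
      obtain ⟨e, he, hP⟩ := h T hT
      rw [mem_powersetCard] at he hT
      rw [Nat.one_le_iff_ne_zero, ne_eq, card_eq_zero, ← ne_eq, ← nonempty_iff_ne_empty]
      refine ⟨e, ?_⟩
      rw [bipartiteAbove, mem_filter, mem_filter, mem_powersetCard]
      exact ⟨⟨⟨he.1.trans hT.1, he.2⟩, hP⟩, he.1⟩) (by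
      intro e he
      rw [mem_filter, mem_powersetCard] at he
      have := card_filter_powersetCard_subset e S 7 he.1.1 (by omega)
      rw [he.1.2] at this
      exact this.le)
  rw [card_powersetCard, mul_one] at h1
  have h2 : (S.powersetCard 4).card = ((S.powersetCard 4).filter P).card +
      ((S.powersetCard 4).filter (fun e => ¬ P e)).card :=
    (card_filter_add_card_filter_not _).symm
  rw [card_powersetCard] at h2
  have h3 : S.card.choose 7 * Nat.choose 7 4 = S.card.choose 4 * (S.card - 4).choose (7 - 4) :=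
    Nat.choose_mul (by norm_num)
  have h4 : Nat.choose 7 4 = 35 := by decide
  rw [h4, show 7 - 4 = 3 by norm_num] at h3
  have h5 : 0 < (S.card - 4).choose 3 := Nat.choose_pos (by omega)
  have h6 : S.card.choose 4 ≤ 35 * ((S.powersetCard 4).filter (fun e => ¬ P e)).card := by
    apply Nat.le_of_mul_le_mul_right _ h5
    rw [← h3]
    calc S.card.choose 7 * 35 ≤ (((S.powersetCard 4).filter (fun e => ¬ P e)).card *
          (S.card - 4).choose 3) * 35 := Nat.mul_le_mul_right _ h1
      _ = _ := by ring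
  omega

/-- the sum of the degrees -/
theorem sum_deg {n : ℕ} (S : Finset (Fin n)) (P : Finset (Fin n) → Prop) [DecidablePred P] :
    ∑ v ∈ S, ((S.powersetCard 4).filter (fun e => v ∈ e ∧ P e)).card =
      4 * ((S.powersetCard 4).filter P).card := by
  classical
  have h := sum_card_bipartiteAbove_eq_sum_card_bipartiteBelow (s := S)
    (t := (S.powersetCard 4).filter P) (fun v e => v ∈ e)
  have e1 : ∀ v ∈ S, (bipartiteAbove (fun v e => v ∈ e) ((S.powersetCard 4).filter P) v).card =
      ((S.powersetCard 4).filter (fun e => v ∈ e ∧ P e)).card := by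
    intro v _
    rw [bipartiteAbove, filter_filter]
    congr 1
    apply filter_congr
    intro e _
    exact and_comm
  have e2 : ∀ e ∈ (S.powersetCard 4).filter P,
      (bipartiteBelow (fun v e => v ∈ e) S e).card = 4 := by
    intro e he
    rw [mem_filter, mem_powersetCard] at he
    rw [bipartiteBelow, filter_mem_eq_inter, inter_eq_right.2 he.1.1, he.1.2]
  rw [sum_congr rfl e1, sum_congr rfl e2, sum_const, smul_eq_mul] at h
  rw [h, mul_comm]

/-- The colouring defeats all sets of size at least `16 j + 16`. -/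
theorem main {j : ℕ} {χ : ℕ → ℕ → Bool} (hχ : Good j χ) {n : ℕ} (hn : n ≤ 2 ^ 2 ^ j)
    (S : Finset (Fin n)) (hS : 8 * (2 * j + 2) ≤ S.card) (c : Fin 2) :
    ∃ v ∈ S, (((S.powersetCard 4).filter (fun e => v ∈ e ∧ col χ n e = c)).card : ℝ) <
      (![(1 : ℝ), 69 / 70] c) * (((S.card - 1).choose 3 : ℕ) : ℝ) := by
  classical
  have hpos : 0 < (S.card - 1).choose 3 := Nat.choose_pos (by omega)
  have hc : c = 0 ∨ c = 1 := by
    fin_cases c
    · exact Or.inl rfl
    · exact Or.inr rfl
  rcases hc with rfl | rfl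
  · obtain ⟨x, hx1, hx2, hx3⟩ := enum S S.card le_rfl
    obtain ⟨a, b, c, d, hab, hbc, hcd, hd, hB⟩ := red_bound hχ x S.card hS hx1
      (fun i hi => (hx2 i hi).trans_le hn)
    obtain ⟨e, he, hec⟩ := hx3 χ a b c d hab hbc hcd hd
    have hcol := hec.2 hB
    obtain ⟨v, hv⟩ : e.Nonempty := by
      rw [← card_pos, (mem_powersetCard.1 he).2]
      norm_num
    have hvS : v ∈ S := (mem_powersetCard.1 he).1 hv
    refine ⟨v, hvS, ?_⟩
    have : ((S.powersetCard 4).filter (fun e => v ∈ e ∧ col χ n e = 0)).card <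
        (S.card - 1).choose 3 := by
      rw [← card_star S v hvS]
      apply card_lt_card
      rw [ssubset_iff_of_subset]
      · refine ⟨e, mem_filter.2 ⟨he, hv⟩, ?_⟩
        rw [mem_filter, hcol]
        rintro ⟨_, _, h⟩
        exact absurd h (by decide)
      · intro e' he'
        rw [mem_filter] at he' ⊢
        exact ⟨he'.1, he'.2.1⟩
    simp only [Matrix.cons_val_zero, one_mul]
    exact_mod_cast this
  · by_contra hcon
    push Not at hcon
    have h7 : ∀ T ∈ S.powersetCard 7, ∃ e ∈ T.powersetCard 4, ¬ (col χ n e = 1) := by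
      intro T hT
      rw [mem_powersetCard] at hT
      obtain ⟨x, hx1, hx2, hx3⟩ := enum T 7 hT.2.ge
      obtain ⟨a, b, c, d, hab, hbc, hcd, hd, hB⟩ := blue_bound (χ := χ) x hx1
      obtain ⟨e, he, hec⟩ := hx3 χ a b c d hab hbc hcd hd
      exact ⟨e, he, fun h => hB (hec.1 h)⟩
    have h1 := density S (by omega) (fun e => col χ n e = 1) h7
    have h2 := sum_deg S (fun e => col χ n e = 1)
    have h3 : ∑ v ∈ S, (![(1 : ℝ), 69 / 70] 1) * (((S.card - 1).choose 3 : ℕ) : ℝ) ≤
        ∑ v ∈ S, (((S.powersetCard 4).filter (fun e => v ∈ e ∧ col χ n e = 1)).card : ℝ) :=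
      sum_le_sum hcon
    rw [← Nat.cast_sum, h2, sum_const, nsmul_eq_mul] at h3
    have h4 : S.card * (S.card - 1).choose 3 = S.card.choose 4 * 4 := by
      have := Nat.add_one_mul_choose_eq (S.card - 1) 3
      rw [show S.card - 1 + 1 = S.card by omega] at this
      exact this
    have h5 : (S.card : ℝ) * (((S.card - 1).choose 3 : ℕ) : ℝ) = (S.card.choose 4 : ℝ) * 4 := by
      exact_mod_cast h4
    have h6 : (0 : ℝ) < (S.card.choose 4 : ℝ) := by
      exact_mod_cast Nat.choose_pos (by omega)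
    have h7' : (35 : ℝ) * (((S.powersetCard 4).filter (fun e => col χ n e = 1)).card : ℝ) ≤
        34 * (S.card.choose 4 : ℝ) := by exact_mod_cast h1
    simp only [Matrix.cons_val_one, Matrix.cons_val_fin_one] at h3
    push_cast at h3
    nlinarith

end Pool.Agent.TH470
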