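import Mathlib
import Pool.Agent.TH470.Quasi

/-!
# Quasi-Ramsey numbers: quadruples, two colours, growth
-/

namespace Pool.Agent.TH470

open Finset Filter

theorem growth (C D : ℝ) : ∃ j : ℕ,
    C * (((8 * (2 * j + 2) : ℕ) : ℝ)) ^ D < Real.log ((2 : ℝ) ^ 2 ^ j) := by
  have hlog : 0 < Real.log 2 := Real.log_pos (by norm_num)
  have hb : 0 < Real.log 2 / 16 := by positivity
  have h1 := isLittleO_rpow_exp_pos_mul_atTop D hb
  have h2 : Tendsto (fun j : ℕ => (((8 * (2 * j + 2) : ℕ) : ℝ))) atTop atTop := by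
    apply tendsto_natCast_atTop_atTop.comp
    apply tendsto_atTop_mono (f := fun j : ℕ => j) (fun j => by omega) tendsto_id
  have h3 := h1.comp_tendsto h2
  have hc : (0 : ℝ) < 1 / (4 * (|C| + 1)) := by positivity
  have h4 := h3.bound hc
  obtain ⟨j, hj⟩ := h4.exists
  refine ⟨j, ?_⟩
  simp only [Function.comp] at hj
  rw [Real.norm_eq_abs, Real.norm_eq_abs, abs_of_nonneg (by positivity),
    abs_of_pos (Real.exp_pos _)] at hj
  set K : ℝ := ((8 * (2 * j + 2) : ℕ) : ℝ) with hK
  have hK' : K = 16 * j + 16 := by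
    rw [hK]; push_cast; ring
  have e1 : Real.exp (Real.log 2 / 16 * K) = 2 * 2 ^ j := by
    rw [hK', show Real.log 2 / 16 * (16 * (j : ℝ) + 16) = Real.log 2 * ((j : ℝ) + 1) by ring,
      ← Real.rpow_def_of_pos (by norm_num), Real.rpow_add (by norm_num), Real.rpow_natCast,
      Real.rpow_one]
    ring
  rw [e1] at hj
  have hKD : 0 ≤ K ^ D := Real.rpow_nonneg (by rw [hK]; positivity) D
  have hlog2 : (1 : ℝ) / 2 < Real.log 2 := by
    have := Real.log_two_gt_d9
    linarith
  rw [Real.log_pow]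
  push_cast
  have h2j : (0 : ℝ) < 2 ^ j := by positivity
  calc C * K ^ D ≤ (|C| + 1) * K ^ D := by
        apply mul_le_mul_of_nonneg_right _ hKD
        linarith [le_abs_self C]
    _ ≤ (|C| + 1) * (1 / (4 * (|C| + 1)) * (2 * 2 ^ j)) := by
        apply mul_le_mul_of_nonneg_left hj
        positivity
    _ = 2 ^ j * (1 / 2) := by
        have : |C| + 1 ≠ 0 := by positivity
        field_simp
        norm_num
    _ < 2 ^ j * Real.log 2 := mul_lt_mul_of_pos_left hlog2 h2j

end Pool.Agent.TH470
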